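import Pool.Agent.Lib.MP_182bbb_co.AR.H5.Main
import Pool.Agent.Lib.MP_182bbb_co.AR.H30.Pages
import Pool.Agent.Lib.MP_182bbb_co.AR.H30.Lim
import Pool.Agent.Lib.MP_182bbb_co.AR.H39.Avg
import Pool.Agent.Lib.MP_182bbb_co.AR.H39.Embed
import Pool.Agent.Lib.MP_182bbb_co.AR.H39.Peel
import Pool.Agent.Lib.MP_182bbb_co.AR.H66.Bookloc
import Pool.Agent.Lib.MP_182bbb_co.AR.H70.Lower
import Pool.Agent.Lib.MP_182bbb_co.AR.H70.Starcard
import Pool.Agent.Lib.MP_182bbb_co.AR.H48.Strict
import Pool.Agent.Lib.MP_182bbb_co.AR.H92.Bookup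

/-! # MP_182bbb_co, board ar : the modules put together -/

open Finset MP_182bbb_co.H5 Filter Topology

namespace MP_182bbb_co.AR

universe u v

theorem upper_all : UPPER_S.{u, v} := upper strict embed peel

theorem bookup_all : BOOKUP_S.{u, v} :=
  bookup (H66.bookloc (H30.pages hall) avg) deg

theorem strict_tree {α : Type u} [DecidableEq α] (r : ℕ) (hr : 2 ≤ r) (H : Finset (Finset α))
    (hH : IsStrictTree r H) :
    IsTightTree H ∧
    (∀ (V : Type v) [Fintype V] [DecidableEq V] (G : Finset (Finset V)), IsUniform r G →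
      ¬ ContainsCopy (expansion 1 (H5.shadow H)) G →
      G.card ≤ (2 * H.card - 1) * (H5.shadow G).card) ∧
    (∀ n : ℕ, H.card * (n - H.card).choose (r - 1) ≤ ex r n (expansion 1 (H5.shadow H)) ∧
      ex r n (expansion 1 (H5.shadow H)) ≤ (2 * H.card - 1) * n.choose (r - 1)) :=
  strict_aux strict upper_all upper_all lower starcard r hr H hH

theorem book {α : Type u} [DecidableEq α] (r : ℕ) (hr : 2 ≤ r) (H : Finset (Finset α))
    (hH : IsBook r H) :
    IsTightTree H ∧
    (∀ (V : Type v) [Fintype V] [DecidableEq V] (G : Finset (Finset V)), IsUniform r G →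
      ¬ ContainsCopy (expansion 1 (H5.shadow H)) G → G.card ≤ H.card * (H5.shadow G).card) ∧
    Tendsto (fun n : ℕ => (ex r n (expansion 1 (H5.shadow H)) : ℝ) /
      (n.choose (r - 1) : ℝ)) atTop (𝓝 (H.card : ℝ)) :=
  book_aux strict bookup_all bookup_all lower starcard lim r hr H hH

end MP_182bbb_co.AR
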