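import Pool.Agent.Lib.MP_182bbb_co.H5.Basic

/-!
# MP_182bbb_co : strict tight trees of every uniformity (board `ar`)

Definitions and the statements of the modules.  The complete paper proof is in AR/Paper.md.
-/

open Finset MP_182bbb_co.H5

namespace MP_182bbb_co.AR

/-- A strict `r`-uniform tight tree: the edges can be listed as `e_0, ..., e_k` (without
repetition) so that for every `i ≥ 1` the edge `e_i` has exactly `r - 1` vertices in
`e_0 ∪ ... ∪ e_{i-1}` and all of them lie in one `e_j`, `j < i`. -/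
def IsStrictTree {α : Type*} [DecidableEq α] (r : ℕ) (H : Finset (Finset α)) : Prop :=
  ∃ (k : ℕ) (e : Fin (k + 1) → Finset α), Function.Injective e ∧ univ.image e = H ∧
    (∀ i, (e i).card = r) ∧
    ∀ i : Fin (k + 1), 0 < (i : ℕ) → (e i ∩ (Finset.Iio i).biUnion e).card + 1 = r ∧
      ∃ j < i, e i ∩ (Finset.Iio i).biUnion e ⊆ e j

/-- A book: all edges contain one common set of `r - 1` vertices. -/
def IsBook {α : Type*} [DecidableEq α] (r : ℕ) (H : Finset (Finset α)) : Prop :=
  H.Nonempty ∧ IsUniform r H ∧ ∃ q : Finset α, q.card + 1 = r ∧ ∀ e ∈ H, q ⊆ e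

/-- The list of `f`: all `c` such that `f ∪ {c}` is an edge of `G`. -/
def lk {V : Type*} [Fintype V] [DecidableEq V] (G : Finset (Finset V)) (f : Finset V) : Finset V :=
  univ.filter (fun c => c ∉ f ∧ insert c f ∈ G)

/-- The codegree of `f`. -/
def dg {V : Type*} [Fintype V] [DecidableEq V] (G : Finset (Finset V)) (f : Finset V) : ℕ :=
  (lk G f).card

/-- The star: all `r`-sets with exactly one vertex in `L`. -/
def star {V : Type*} [Fintype V] [DecidableEq V] (r : ℕ) (L : Finset V) : Finset (Finset V) :=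
  (univ.powersetCard r).filter (fun e => (e ∩ L).card = 1)

universe u v

/-- SDR: a system of distinct representatives. -/
def SDR_S : Prop := ∀ (ι : Type u) (V : Type v) [DecidableEq ι] [DecidableEq V] (T : Finset ι)
  (A : ι → Finset V), T.Nonempty → ∑ p ∈ T, (1 : ℝ) / ((A p).card + 1) < 1 →
    ∃ h : ι → V, Set.InjOn h (T : Set ι) ∧ ∀ p ∈ T, h p ∈ A p

/-- HALL: placement of the vertices of `T = ∂H` plus `SDR` gives a copy of `T^+`. -/
def HALL_S : Prop := ∀ (α : Type u) (V : Type v) [DecidableEq α] [Fintype V] [DecidableEq V]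
  (H : Finset (Finset α)) (G : Finset (Finset V)) (g : α → V),
  Set.InjOn g (verts H : Set α) → (H5.shadow H).Nonempty →
  ∑ p ∈ H5.shadow H, (1 : ℝ) / ((lk G (p.image g) \ (verts H).image g).card + 1) < 1 →
  ContainsCopy (expansion 1 (H5.shadow H)) G

/-- STRICT: basic facts on strict trees. -/
def STRICT_S : Prop := ∀ (α : Type u) [DecidableEq α] (r : ℕ) (H : Finset (Finset α)),
  IsStrictTree r H → H.Nonempty ∧ IsUniform r H ∧ IsTightTree H ∧
    (verts H).card + 1 = H.card + r

/-- EMBED: greedy embedding of a strict tree. -/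
def EMBED_S : Prop := ∀ (α : Type u) (V : Type v) [DecidableEq α] [Fintype V] [DecidableEq V]
  (r : ℕ) (H : Finset (Finset α)) (K : Finset (Finset V)), 1 ≤ r → IsStrictTree r H →
  IsUniform r K → K.Nonempty → (∀ f ∈ H5.shadow K, H.card ≤ dg K f) →
  ∃ g : α → V, Set.InjOn g (verts H : Set α) ∧ ∀ e ∈ H, e.image g ∈ K

/-- PEEL: a hypergraph without subhypergraphs of minimum codegree `≥ N` has few edges. -/
def PEEL_S : Prop := ∀ (V : Type v) [Fintype V] [DecidableEq V] (r N : ℕ) (K : Finset (Finset V)),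
  IsUniform r K → 1 ≤ r → 1 ≤ N →
  (∀ K' ⊆ K, K'.Nonempty → ∃ f ∈ H5.shadow K', dg K' f < N) →
  K.card ≤ ∑ f ∈ H5.shadow K, min (N - 1) (dg K f)

/-- DEG: double counting of pairs (edge, vertex). -/
def DEG_S : Prop := ∀ (V : Type v) [Fintype V] [DecidableEq V] (r : ℕ) (K G : Finset (Finset V))
  (F : Finset V → V → ℝ), IsUniform r G → K ⊆ G →
  ∑ f ∈ H5.shadow G, ∑ c ∈ lk K f, F f c = ∑ e ∈ K, ∑ c ∈ e, F (e.erase c) c

/-- UPPER: the general upper bound, for every uniformity. -/
def UPPER_S : Prop := ∀ (α : Type u) (V : Type v) [DecidableEq α] [Fintype V] [DecidableEq V]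
  (r : ℕ) (H : Finset (Finset α)) (G : Finset (Finset V)), 1 ≤ r → IsStrictTree r H →
  IsUniform r G → ¬ ContainsCopy (expansion 1 (H5.shadow H)) G →
  G.card ≤ (2 * H.card - 1) * (H5.shadow G).card

/-- AVG: the hypergeometric average. -/
def AVG_S : Prop := ∀ (V : Type v) [DecidableEq V] (A P : Finset V) (a m : ℕ),
  (P ∩ A).card + 1 ≤ a →
  ∑ C ∈ A.powersetCard m, (1 : ℝ) / ((a : ℝ) - (P ∩ C).card) ≤ ((A.card + 1).choose m : ℝ) / a

/-- PAGES: placing a book with `N` pages on a facet `f` and a set `C` of `N` elements of its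
list. -/
def PAGES_S : Prop := ∀ (α : Type u) (V : Type v) [DecidableEq α] [Fintype V] [DecidableEq V]
  (r : ℕ) (H : Finset (Finset α)) (G : Finset (Finset V)), 1 ≤ r → IsBook r H →
  IsUniform r G → ¬ ContainsCopy (expansion 1 (H5.shadow H)) G →
  ∀ f : Finset V, f.card + 1 = r → ∀ C ⊆ lk G f, C.card = H.card →
    1 ≤ (1 : ℝ) / ((dg G f : ℝ) - H.card + 1) +
      ∑ c ∈ C, ∑ x ∈ f, (1 : ℝ) /
        ((dg G (insert c (f.erase x)) : ℝ) - (lk G (insert c (f.erase x)) ∩ C.erase c).card)

/-- BOOKLOC: the local inequality at a facet. -/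
def BOOKLOC_S : Prop := ∀ (α : Type u) (V : Type v) [DecidableEq α] [Fintype V] [DecidableEq V]
  (r : ℕ) (H : Finset (Finset α)) (G : Finset (Finset V)), 1 ≤ r → IsBook r H →
  IsUniform r G → ¬ ContainsCopy (expansion 1 (H5.shadow H)) G →
  ∀ f : Finset V, f.card + 1 = r →
    (dg G f : ℝ) - H.card ≤ H.card * ∑ c ∈ lk G f, ∑ x ∈ f,
      (1 : ℝ) / (dg G (insert c (f.erase x)) : ℝ)

/-- BOOKUP: the exact upper bound for books, for every uniformity. -/
def BOOKUP_S : Prop := ∀ (α : Type u) (V : Type v) [DecidableEq α] [Fintype V] [DecidableEq V]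
  (r : ℕ) (H : Finset (Finset α)) (G : Finset (Finset V)), 1 ≤ r → IsBook r H →
  IsUniform r G → ¬ ContainsCopy (expansion 1 (H5.shadow H)) G →
  G.card ≤ H.card * (H5.shadow G).card

/-- LOWER: the star with `N` centres contains no `T^+`. -/
def LOWER_S : Prop := ∀ (α : Type u) (V : Type v) [DecidableEq α] [Fintype V] [DecidableEq V]
  (r : ℕ) (H : Finset (Finset α)) (L : Finset V), 2 ≤ r → IsStrictTree r H →
  L.card ≤ H.card → ¬ ContainsCopy (expansion 1 (H5.shadow H)) (star r L)

/-- STARCARD: the number of edges of the star. -/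
def STARCARD_S : Prop := ∀ (V : Type v) [Fintype V] [DecidableEq V] (r : ℕ) (L : Finset V),
  1 ≤ r → (star r L).card = L.card * (Fintype.card V - L.card).choose (r - 1)

/-- LIM: the analytic end. -/
def LIM_S : Prop := ∀ (r N : ℕ), 2 ≤ r →
  Filter.Tendsto (fun n : ℕ => ((N * (n - N).choose (r - 1) : ℕ) : ℝ) / (n.choose (r - 1) : ℝ))
    Filter.atTop (nhds (N : ℝ))

end MP_182bbb_co.AR
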